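import Mathlib
import Pool.Agent.Lib.helper20.CoverDens

open Filter Pool.Agent.Lib.helper20.CoverDens

namespace Pool.Agent.Results.MP_1da4e9_nt.LowerDuals

/-- `μ` (only its values on subsets of `H` matter) is an upper quasi-density on `H`. -/
structure UQD (H : Set ℤ) (μ : Set ℤ → ℝ) : Prop where
  f1 : μ H = 1
  f3 : ∀ X ⊆ H, ∀ Y ⊆ H, μ (X ∪ Y) ≤ μ X + μ Y
  f4 : ∀ X ⊆ H, ∀ h k : ℕ+,
    μ ((fun x => ((k : ℕ) : ℤ) * x + ((h : ℕ) : ℤ)) '' X) = 1 / ((k : ℕ) : ℝ) * μ X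
  le1 : ∀ X ⊆ H, μ X ≤ 1

/-- `μ` is an upper density on `H`: a monotone upper quasi-density. -/
def UD (H : Set ℤ) (μ : Set ℤ → ℝ) : Prop :=
  UQD H μ ∧ ∀ X Y, X ⊆ Y → Y ⊆ H → μ X ≤ μ Y

/-- The lower dual of `μ` on `H`. -/
def lowerDual (H : Set ℤ) (μ : Set ℤ → ℝ) (X : Set ℤ) : ℝ := 1 - μ (H \ X)

/-- `(-1)`-homogeneity on subsets of `H`. -/
def Homog (H : Set ℤ) (ν : Set ℤ → ℝ) : Prop :=
  ∀ X ⊆ H, ∀ k : ℕ+, ν ((fun x => ((k : ℕ) : ℤ) * x) '' X) = 1 / ((k : ℕ) : ℝ) * ν X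

/-- Translation invariance on subsets of `H`. -/
def TransInv (H : Set ℤ) (ν : Set ℤ → ℝ) : Prop :=
  ∀ X ⊆ H, ∀ h : ℕ, ν ((fun x => x + (h : ℤ)) '' X) = ν X

def TT (G : Set ℤ) : Bool → Set ℤ
  | false => Set.univ
  | true => {x | Odd x ∨ ∃ y ∈ G, x = 2 * y}

noncomputable def ww : Bool → ℝ
  | false => 1
  | true => 1 / 2

lemma hw : ∀ t, 1 / 2 ≤ ww t := by rintro (_ | _) <;> norm_num [ww]

lemma dvd_aux {ι : Type} {L : Finset ι} {f : ι → ℕ+} {p : ι} (hp : p ∈ L) {n r h : ℤ}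
    (h2 : ((∏ q ∈ L, f q : ℕ+) : ℕ) ∣ (n - r).natAbs) (h3 : ((f p : ℕ) : ℤ) ∣ n - h) :
    ((f p : ℕ) : ℤ) ∣ r - h := by
  have d1 : f p ∣ ∏ q ∈ L, f q := Finset.dvd_prod_of_mem f hp
  have d2 : ((f p : ℕ) : ℤ) ∣ n - r := Int.natCast_dvd.2 ((PNat.dvd_iff.1 d1).trans h2)
  have := dvd_sub h3 d2
  rwa [sub_sub_sub_cancel_left] at this

lemma cost_big {G : Set ℤ} (hG : Generic G) (L : Finset (ℕ+ × ℤ × Bool))
    (hL : Covers (TT G) L (Set.Ici 1 ∩ G)) : 1 ≤ ∑ p ∈ L, cost ww p := by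
  classical
  let kk : ℕ+ × ℤ × Bool → ℕ+ := fun p => if p.2.2 then 2 * p.1 else p.1
  let hh : ℕ+ × ℤ × Bool → ℤ := fun p => if p.2.2 then (p.1 : ℕ) + p.2.1 else p.2.1
  refine le_trans (classes_cover L kk hh fun r => ?_) (le_of_eq (Finset.sum_congr rfl ?_))
  · by_contra hr
    push Not at hr
    obtain ⟨N, hN⟩ := eventually_atTop.1 hL
    let F := insert ((1 : ℕ+), (0 : ℤ)) (L.image fun p => (2 * p.1, p.2.1))
    obtain ⟨n, hn1, hn2, hn3⟩ := hG F {(1, 0)} (∏ p ∈ L, kk p) r (max N 1)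
    have h10 : n ∈ G := (hn3 (1, 0) (Finset.mem_insert_self _ _) n (by simp)).2 (by simp)
    obtain ⟨⟨k, h, t⟩, hp, x, hx, ex⟩ :=
      hN n (le_trans (le_max_left _ _) hn1) ⟨le_trans (le_max_right _ _) hn1, h10⟩
    refine hr _ hp (dvd_aux hp (Int.natCast_dvd.1 hn2) ?_)
    simp only at ex
    cases t
    · exact ⟨x, by simp only [kk, hh, Bool.false_eq_true, if_false]; linarith⟩
    · rcases hx with ⟨y, rfl⟩ | ⟨y, hy, rfl⟩
      · refine ⟨y, ?_⟩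
        simp only [kk, hh, if_true, PNat.mul_coe, PNat.val_ofNat]; push_cast; linarith
      · exfalso
        have := (hn3 (2 * k, h) (Finset.mem_insert_of_mem (Finset.mem_image_of_mem _ hp)) y (by
          simp only [PNat.mul_coe, PNat.val_ofNat]; push_cast; linarith)).1 hy
        have h2 := congrArg (fun q : ℕ+ × ℤ => (q.1 : ℕ)) (Finset.mem_singleton.1 this)
        simp only [PNat.mul_coe, PNat.val_ofNat, PNat.one_coe] at h2
        omega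
  · rintro ⟨k, h, _ | _⟩ _
    · simp [kk, cost, ww]
    · simp only [kk, cost, ww, if_true, PNat.mul_coe, PNat.val_ofNat]; push_cast; field_simp

lemma q1 (H : Set ℤ) (hH : Set.Ici 1 ⊆ H) (h2 : ∀ y, 2 * y ∈ H → y ∈ H) :
    ∃ μ, UD H μ ∧ ¬ Homog H (lowerDual H μ) := by
  obtain ⟨G, hG⟩ := exists_generic
  have h0 : TT G false = Set.univ := rfl
  have big : ∀ Z, Set.Ici 1 ∩ G ⊆ Z → mu (TT G) ww Z = 1 := fun Z hZ =>
    le_antisymm (mu_le_one hw h0 rfl _) (le_mu h0 fun L hL =>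
      cost_big hG L (hL.mono fun _ hn hx => hn (hZ hx)))
  refine ⟨mu (TT G) ww, ⟨⟨big H (Set.inter_subset_left.trans hH), fun X _ Y _ => mu_union hw h0 X Y,
    fun X _ h k => mu_aff hw h0 rfl k _ X, fun X _ => mu_le_one hw h0 rfl X⟩,
    fun X Y h _ => mu_mono hw h0 h⟩, fun hh => ?_⟩
  have e := hh (H \ G) Set.diff_subset 2
  unfold lowerDual at e
  rw [big (H \ (H \ G)) (fun x hx => ⟨hH hx.1, fun h => h.2 hx.2⟩)] at e
  have := mu_le (T := TT G) hw (L := {(1, 0, true)})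
    (Z := H \ (fun x => (((2 : ℕ+) : ℕ) : ℤ) * x) '' (H \ G))
    (Eventually.of_forall fun n hn => ⟨_, Finset.mem_singleton_self _, n, ?_, by simp⟩)
  · rw [Finset.sum_singleton] at this
    simp only [cost, ww, PNat.one_coe, Nat.cast_one] at this
    linarith
  · rcases Int.even_or_odd n with ⟨y, rfl⟩ | ho
    · refine Or.inr ⟨y, ?_, by ring⟩
      by_contra hy
      exact hn.2 ⟨y, ⟨h2 y (by rw [two_mul]; exact hn.1), hy⟩, by simp [two_mul]⟩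
    · exact Or.inl ho

noncomputable def lam (Z : Set ℤ) : ℝ := mu (fun _ : Unit => Set.univ) (fun _ => 1) Z

lemma hw1 : ∀ _ : Unit, (1 : ℝ) / 2 ≤ 1 := fun _ => by norm_num

lemma lam_one (Z : Set ℤ) (hZ : ∀ (m : ℕ+) (r N : ℤ), ∃ n, N ≤ n ∧ ((m : ℕ) : ℤ) ∣ n - r ∧ n ∈ Z) :
    lam Z = 1 := by
  refine le_antisymm (mu_le_one hw1 (t0 := ()) rfl rfl _) (le_mu (t0 := ()) rfl fun L hL => ?_)
  refine classes_cover L (fun p => p.1) (fun p => p.2.1) fun r => ?_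
  obtain ⟨N, hN⟩ := eventually_atTop.1 hL
  obtain ⟨n, h1, h2, h3⟩ := hZ (∏ p ∈ L, p.1) r N
  obtain ⟨p, hp, x, -, ex⟩ := hN n h1 h3
  exact ⟨p, hp, dvd_aux hp (Int.natCast_dvd.1 h2) ⟨x, by simp only at ex; linarith⟩⟩

def X0 (G : Set ℤ) : Set ℤ := {x | x = 0 ∨ x = 1 ∨ (2 ≤ x ∧ x ∈ G)}

def cop (G : Set ℤ) (F : Finset (ℕ+ × ℤ)) : Set ℤ := {n | ∃ p ∈ F, n ∈ aff p.1 p.2 (X0 G)}

noncomputable def nu (G Z : Set ℤ) : ℝ := sInf {t | ∃ F, cop G F ⊆ Z ∧ t = lam (Z \ cop G F)}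

lemma cop_empty (G : Set ℤ) : cop G ∅ = ∅ := by simp [cop]

lemma nu_le {G Z : Set ℤ} {F : Finset (ℕ+ × ℤ)} (h : cop G F ⊆ Z) : nu G Z ≤ lam (Z \ cop G F) :=
  csInf_le ⟨0, by rintro _ ⟨F, -, rfl⟩; exact mu_nonneg hw1 (t0 := ()) rfl _⟩ ⟨F, h, rfl⟩

lemma le_nu {G Z : Set ℤ} {c : ℝ} (h : ∀ F, cop G F ⊆ Z → c ≤ lam (Z \ cop G F)) : c ≤ nu G Z :=
  le_csInf ⟨_, ∅, by simp [cop_empty], rfl⟩ (by rintro _ ⟨F, hF, rfl⟩; exact h F hF)

lemma nu_le_one (G Z : Set ℤ) : nu G Z ≤ 1 :=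
  (nu_le (F := ∅) (by simp [cop_empty])).trans (mu_le_one hw1 (t0 := ()) rfl rfl _)

lemma nu_union (G X Y : Set ℤ) : nu G (X ∪ Y) ≤ nu G X + nu G Y := by
  classical
  have : ∀ F, cop G F ⊆ X → ∀ F', cop G F' ⊆ Y →
      nu G (X ∪ Y) ≤ lam (X \ cop G F) + lam (Y \ cop G F') := by
    intro F hF F' hF'
    refine (nu_le (F := F ∪ F') ?_).trans
      ((mu_mono hw1 (t0 := ()) rfl ?_).trans (mu_union hw1 (t0 := ()) rfl _ _))
    · rintro n ⟨p, hp, h⟩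
      rcases Finset.mem_union.1 hp with hp | hp
      · exact Or.inl (hF ⟨p, hp, h⟩)
      · exact Or.inr (hF' ⟨p, hp, h⟩)
    · rintro n ⟨hn | hn, h⟩
      · exact Or.inl ⟨hn, fun ⟨p, hp, h'⟩ => h ⟨p, Finset.mem_union_left _ hp, h'⟩⟩
      · exact Or.inr ⟨hn, fun ⟨p, hp, h'⟩ => h ⟨p, Finset.mem_union_right _ hp, h'⟩⟩
  have h1 : nu G (X ∪ Y) - nu G Y ≤ nu G X := le_nu fun L hL => by
    have : nu G (X ∪ Y) - lam (X \ cop G L) ≤ nu G Y :=
      le_nu fun L' hL' => by linarith [this L hL L' hL']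
    linarith
  linarith

lemma cop_image (G : Set ℤ) (k : ℕ+) (h : ℤ) (F : Finset (ℕ+ × ℤ)) :
    cop G (F.image fun p => (k * p.1, (k : ℕ) * p.2 + h)) = aff k h (cop G F) := by
  ext n
  simp only [cop, aff, Finset.mem_image, Set.mem_ofPred_eq, Set.mem_image]
  constructor
  · rintro ⟨_, ⟨p, hp, rfl⟩, x, hx, rfl⟩
    exact ⟨_, ⟨p, hp, x, hx, rfl⟩, by simp only [PNat.mul_coe]; push_cast; ring⟩
  · rintro ⟨_, ⟨p, hp, x, hx, rfl⟩, rfl⟩
    exact ⟨_, ⟨p, hp, rfl⟩, x, hx, by simp only [PNat.mul_coe]; push_cast; ring⟩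

lemma aff_inj (k : ℕ+) (h : ℤ) : Function.Injective fun x : ℤ => ((k : ℕ) : ℤ) * x + h :=
  fun a b e => mul_left_cancel₀ (by exact_mod_cast k.2.ne' : ((k : ℕ) : ℤ) ≠ 0)
    (add_right_cancel e)

lemma lam_diff (k : ℕ+) (h : ℤ) (Z W : Set ℤ) :
    lam (aff k h Z \ aff k h W) = 1 / ((k : ℕ) : ℝ) * lam (Z \ W) := by
  unfold lam
  rw [← mu_aff hw1 (t0 := ()) rfl rfl k h, aff, aff, aff, Set.image_sdiff (aff_inj k h)]

lemma nu_aff (G : Set ℤ) (k : ℕ+) (h : ℤ) (Z : Set ℤ) :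
    nu G (aff k h Z) = 1 / ((k : ℕ) : ℝ) * nu G Z := by
  classical
  have hk : (0 : ℝ) < (k : ℕ) := by exact_mod_cast k.2
  apply le_antisymm
  · have : ((k : ℕ) : ℝ) * nu G (aff k h Z) ≤ nu G Z := le_nu fun F hF => by
      have h3 := nu_le (G := G) (Z := aff k h Z)
        (F := F.image fun p => (k * p.1, (k : ℕ) * p.2 + h))
        (by rw [cop_image]; exact Set.image_mono hF)
      rwa [cop_image, lam_diff, one_div_mul_eq_div, le_div_iff₀ hk, mul_comm] at h3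
    rwa [one_div_mul_eq_div, le_div_iff₀ hk, mul_comm]
  · refine le_nu fun F hF => ?_
    have : ∀ p ∈ F, ∃ q : ℕ+ × ℤ, p = (k * q.1, (k : ℕ) * q.2 + h) := by
      rintro ⟨k', h'⟩ hp
      obtain ⟨z0, -, e0⟩ := hF ⟨_, hp, 0, Or.inl rfl, rfl⟩
      obtain ⟨z1, -, e1⟩ := hF ⟨_, hp, 1, Or.inr (Or.inl rfl), rfl⟩
      simp only at e0 e1
      have d : k ∣ k' := PNat.dvd_iff.2 (Int.natCast_dvd_natCast.1 ⟨z1 - z0, by linarith⟩)
      obtain ⟨q, rfl⟩ := d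
      exact ⟨(q, z0), Prod.ext rfl (by simp only; linarith)⟩
    choose! f hf using this
    have e : F = (F.image f).image fun p => (k * p.1, (k : ℕ) * p.2 + h) := by
      rw [Finset.image_image]
      exact (Finset.image_id.symm).trans (Finset.image_congr fun p hp => hf p hp)
    rw [e, cop_image] at hF
    rw [e, cop_image, lam_diff]
    exact mul_le_mul_of_nonneg_left
      (nu_le ((Set.image_subset_image_iff (aff_inj k h)).1 hF)) (by positivity)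

lemma q2 (a : ℤ) : ∃ μ, UQD (Set.Ici a) μ ∧ ¬ TransInv (Set.Ici a) (lowerDual (Set.Ici a) μ) := by
  classical
  obtain ⟨G, hG⟩ := exists_generic
  have f1 : nu G (Set.Ici a) = 1 := by
    refine le_antisymm (nu_le_one _ _) (le_nu fun F _ => (lam_one _ fun m r N => ?_).ge)
    have e1 : ∀ᶠ n : ℤ in atTop, ∀ p ∈ F, ((p.1 : ℕ) : ℤ) + p.2 < n :=
      (Finset.eventually_all F).2 fun p _ => eventually_gt_atTop _
    obtain ⟨M, hM⟩ := eventually_atTop.1 e1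
    obtain ⟨n, h1, h2, h3⟩ := hG F ∅ m r (max (max N a) M)
    simp only [max_le_iff] at h1
    refine ⟨n, h1.1.1, h2, h1.1.2, ?_⟩
    rintro ⟨p, hp, x, hx, ex⟩
    have := hM n h1.2 p hp
    have hk : (0 : ℤ) < (p.1 : ℕ) := by exact_mod_cast p.1.2
    simp only at ex
    rcases hx with rfl | rfl | hx
    · linarith
    · linarith
    · simpa using (h3 p hp x ex.symm).1 hx.2
  have f2 : nu G (X0 G \ {0}) = 1 := by
    refine le_antisymm (nu_le_one _ _) (le_nu fun F hF => (lam_one _ fun m r N => ?_).ge)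
    obtain ⟨n, h1, h2, h3⟩ := hG {(1, 0)} {(1, 0)} m r (max N 2)
    simp only [max_le_iff] at h1
    refine ⟨n, h1.1, h2, ⟨Or.inr (Or.inr ⟨h1.2, (h3 (1, 0) (by simp) n (by simp)).2 (by simp)⟩),
      fun h => by simp only [Set.mem_singleton_iff] at h; omega⟩, ?_⟩
    rintro ⟨⟨k, h⟩, hp, -⟩
    have hne : (k, h) ≠ (1, 0) := by
      intro e
      rw [e] at hp
      exact (hF ⟨_, hp, 0, Or.inl rfl, rfl⟩).2 (by simp)
    obtain ⟨n', g1, ⟨x, g2⟩, g3⟩ := hG {(1, 0), (k, h)} {(k, h)} k h (max 2 (2 * (k : ℕ) + h))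
    simp only [max_le_iff] at g1
    have hk : (0 : ℤ) < (k : ℕ) := by exact_mod_cast k.2
    have x2 : 2 ≤ x := le_of_mul_le_mul_left (by linarith [g1.2]) hk
    have xG : x ∈ G := (g3 (k, h) (by simp) x (by simp only; linarith)).2 (by simp)
    have nG : n' ∉ G := fun hh => hne
      (Finset.mem_singleton.1 ((g3 (1, 0) (by simp) n' (by simp)).1 hh)).symm
    have := (hF ⟨_, hp, x, Or.inr (Or.inr ⟨x2, xG⟩), (by simp only; linarith : _ = n')⟩).1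
    rcases this with h' | h' | h'
    · omega
    · omega
    · exact nG h'.2
  refine ⟨nu G, ⟨f1, fun X _ Y _ => nu_union G X Y, fun X _ h k => nu_aff G k _ X,
    fun X _ => nu_le_one G X⟩, fun hh => ?_⟩
  have hX0 : ∀ x ∈ X0 G, 0 ≤ x := by rintro x (h | h | h) <;> omega
  have e := hh {x | a ≤ x ∧ x + 1 - a ∉ X0 G} (fun x hx => hx.1) 1
  unfold lowerDual at e
  have e1 : Set.Ici a \ {x | a ≤ x ∧ x + 1 - a ∉ X0 G} = aff 1 (a - 1) (X0 G \ {0}) := by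
    ext x
    simp only [aff, Set.mem_diff, Set.mem_Ici, Set.mem_ofPred_eq, Set.mem_image, PNat.one_coe,
      Nat.cast_one, one_mul, Set.mem_singleton_iff]
    constructor
    · rintro ⟨h1, h2⟩
      exact ⟨x + 1 - a, ⟨by by_contra h; exact h2 ⟨h1, h⟩, by omega⟩, by ring⟩
    · rintro ⟨y, ⟨h1, h2⟩, rfl⟩
      have := hX0 y h1
      exact ⟨by omega, fun h => h.2 (by rwa [show y + (a - 1) + 1 - a = y by ring])⟩
  have e2 : Set.Ici a \ (fun x => x + ((1 : ℕ) : ℤ)) '' {x | a ≤ x ∧ x + 1 - a ∉ X0 G} ⊆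
      cop G {(1, a)} := by
    rintro x ⟨h1, h2⟩
    refine ⟨_, Finset.mem_singleton_self _, x - a, ?_, by simp⟩
    by_contra h
    have h3 : x ≠ a := by rintro rfl; exact h (Or.inl (sub_self _))
    have h1' : a ≤ x := h1
    exact h2 ⟨x - 1, ⟨by omega, by rwa [sub_add_cancel]⟩, by simp⟩
  have e3 : cop G {(1, a)} ⊆
      Set.Ici a \ (fun x => x + ((1 : ℕ) : ℤ)) '' {x | a ≤ x ∧ x + 1 - a ∉ X0 G} := by
    rintro _ ⟨p, hp, y, hy, rfl⟩
    rw [Finset.mem_singleton.1 hp]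
    have := hX0 y hy
    refine ⟨by simp only [Set.mem_Ici, PNat.one_coe]; omega, ?_⟩
    rintro ⟨z, hz, ez⟩
    simp only [PNat.one_coe, Nat.cast_one, one_mul] at ez
    exact hz.2 (by rwa [show z + 1 - a = y by omega])
  have e4 := nu_le e3
  rw [Set.diff_eq_empty.2 e2] at e4
  have e5 : lam ∅ ≤ 0 := by
    exact mu_le (T := fun _ : Unit => Set.univ) hw1 (L := ∅) (Z := ∅)
      (Eventually.of_forall fun _ h => h.elim)
  rw [e1, nu_aff, f2] at e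
  simp only [PNat.one_coe, Nat.cast_one] at e e4
  linarith

theorem result :
    (∀ H : Set ℤ, H = Set.univ ∨ H = Set.Ici 0 ∨ H = Set.Ici 1 →
      ∃ μ, UD H μ ∧ ¬ Homog H (lowerDual H μ)) ∧
    (∀ H : Set ℤ, H = Set.Ici 0 ∨ H = Set.Ici 1 →
      ∃ μ, UQD H μ ∧ ¬ TransInv H (lowerDual H μ)) ∧
    (∀ μ, UQD Set.univ μ → TransInv Set.univ (lowerDual Set.univ μ)) := by
  refine ⟨?_, ?_, fun μ hμ X _ h => ?_⟩
  · rintro H (rfl | rfl | rfl)
    · exact q1 _ (Set.subset_univ _) fun _ _ => trivial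
    · exact q1 _ (Set.Ici_subset_Ici.2 zero_le_one) fun y h => by
        simp only [Set.mem_Ici] at h ⊢; omega
    · exact q1 _ le_rfl fun y h => by simp only [Set.mem_Ici] at h ⊢; omega
  · rintro H (rfl | rfl) <;> exact q2 _
  · rcases Nat.eq_zero_or_pos h with rfl | hp
    · simp
    · have := hμ.f4 (Set.univ \ X) (Set.subset_univ _) ⟨h, hp⟩ 1
      simp only [PNat.one_coe, Nat.cast_one, one_mul, PNat.mk_coe, div_one] at this
      unfold lowerDual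
      rw [← this, Set.image_sdiff (add_left_injective _),
        Set.image_univ_of_surjective (add_right_surjective _)]

end Pool.Agent.Results.MP_1da4e9_nt.LowerDuals
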